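import Mathlib
import Pool.Agent.Q274.EightPointsMain

/-!
# MP_a0a64f_co, Q1: eight points in space are separated by three planes (positive answer)

For every set `P` of eight points of `ℝ³` in general position (no four on a common plane) there
are three planes `H k = {x | ⟪u k, x⟫ = t k}`, `k = 0, 1, 2`, none of which meets `P`, such that
each of the eight sign patterns with respect to the three planes is realised by exactly one point
of `P`.

Proof. Let `H 0` split `P` into `A` and `B` of size four.  Through two points `a, a'` of `A` there
is a plane that misses the other points and halves `B` (a tournament on four vertices has a vertex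
of out-degree one or two, and a slight rotation frees the plane of the point of `B`).  Tilting it
slightly, `a` and `a'` can be put on any sides, so that for every perfect matching `α` of `A` there
is a plane missing `P` which halves `A` and `B` and which separates the two points of each pair
of `α`.  Call the partition of `A` into two pairs induced by a plane its type on `A`; so there are
such planes with type on `A` different from any given one, and similarly for `B`.  It follows that
there are two such planes with different types on `A` and different types on `B`; together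
with `H 0` they separate `P`.
-/

set_option autoImplicit false

namespace Pool.Agent.Results.MP_a0a64f_co.ThreePlanes

open Pool.Agent.Q274.EightPoints

/-- Let `P` be a set of eight points of `ℝ³` such that every plane contains at most three of them.
Then there are three planes `{x | ⟪u k, x⟫ = t k}` (`u k ≠ 0`), disjoint from `P`, such that for
every choice `s` of one open side of each plane exactly one point of `P` lies on the chosen side
of all three planes. -/
theorem result (P : Finset (EuclideanSpace ℝ (Fin 3))) (hcard : P.card = 8)
    (hgen : ∀ (v : EuclideanSpace ℝ (Fin 3)) (c : ℝ), v ≠ 0 →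
      (P.filter (fun p => inner ℝ v p = c)).card ≤ 3) :
    ∃ (u : Fin 3 → EuclideanSpace ℝ (Fin 3)) (t : Fin 3 → ℝ),
      (∀ k, u k ≠ 0) ∧ (∀ k, ∀ p ∈ P, inner ℝ (u k) p ≠ t k) ∧
      ∀ s : Fin 3 → Bool, ∃! p, p ∈ P ∧ ∀ k, (t k < inner ℝ (u k) p ↔ s k = true) := by
  classical
  obtain ⟨ψ, hA, hne, hs⟩ := three_functionals P hcard hgen
  choose a b c t h using hA
  have hin : ∀ k p, inner ℝ (WithLp.toLp 2 ![a k, b k, c k] : EuclideanSpace ℝ (Fin 3)) p - t k
      = ψ k p := by
    intro k p
    rw [inner_eq, h]
    simp
  have hs' : ∀ s : Fin 3 → Bool, ∃! p, p ∈ P ∧ ∀ k,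
      (t k < inner ℝ (WithLp.toLp 2 ![a k, b k, c k] : EuclideanSpace ℝ (Fin 3)) p ↔
        s k = true) := by
    intro s
    have e : ∀ p k, (t k < inner ℝ (WithLp.toLp 2 ![a k, b k, c k] : EuclideanSpace ℝ (Fin 3)) p)
        ↔ 0 < ψ k p := by
      intro p k
      rw [← hin k p, sub_pos]
    simp only [e]
    exact hs s
  refine ⟨fun k => WithLp.toLp 2 ![a k, b k, c k], t, ?_, ?_, hs'⟩
  · intro k hk
    obtain ⟨p, ⟨-, hp⟩, -⟩ := hs' (fun _ => true)
    obtain ⟨q, ⟨-, hq⟩, -⟩ := hs' (fun _ => false)
    have h1 := hp k
    have h2 := hq k
    simp only at hk
    rw [hk, inner_zero_left] at h1 h2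
    rw [h1] at h2
    simp at h2
  · intro k p hp h0
    apply hne k p hp
    rw [← hin k p, h0, sub_self]

end Pool.Agent.Results.MP_a0a64f_co.ThreePlanes
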